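import Mathlib
import Pool.Agent.X7.KneserTools

/-!
# The signed `[0,s]`-critical number of cyclic groups

For all positive integers `n` and `s`, `χ_±(ℤ_n, [0,s]) = v_±(n,s) + 1`.
-/

set_option autoImplicit false

open Finset
open scoped Pointwise

namespace Pool.Agent.Results.MP_c7e63d_co.SignedCritical

open Pool.Agent.Helper591.Kneser Pool.Agent.X7.KneserTools

/-- The `h`-fold signed sumset `h_± A`: all sums `∑ λ_a a` with integers `λ_a` (`a ∈ A`) such that
`∑ |λ_a| = h`. -/
def signedSum {n : ℕ} (h : ℕ) (A : Finset (ZMod n)) : Set (ZMod n) :=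
  {g | ∃ c : ZMod n → ℤ, ∑ a ∈ A, |c a| = (h : ℤ) ∧ ∑ a ∈ A, c a • a = g}

/-- `[0,s]_± A`: the union of the signed sumsets `h_± A` with `0 ≤ h ≤ s`. -/
def signedUpTo {n : ℕ} (s : ℕ) (A : Finset (ZMod n)) : Set (ZMod n) :=
  {g | ∃ h : ℕ, h ≤ s ∧ g ∈ signedSum h A}

/-- `χ_±(ℤ_n, [0,s])`: the least `m` such that `[0,s]_± A = ℤ_n` for all `A` with `|A| ≥ m`. -/
noncomputable def chi (n s : ℕ) : ℕ :=
  sInf {m | ∀ A : Finset (ZMod n), m ≤ A.card → signedUpTo s A = Set.univ}

/-- `v_±(n,h) = max {(2⌊(d-2)/(2h)⌋ + 1) · n/d : d ∣ n}` (an integer, with integer floors). -/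
noncomputable def v (n h : ℕ) : ℤ :=
  sSup {x : ℤ | ∃ d : ℕ, d ∣ n ∧ x = (2 * (((d : ℤ) - 2) / (2 * (h : ℤ))) + 1) * ((n / d : ℕ) : ℤ)}

theorem v_set_finite (n h : ℕ) (hn : 1 ≤ n) :
    {x : ℤ | ∃ d : ℕ, d ∣ n ∧
      x = (2 * (((d : ℤ) - 2) / (2 * (h : ℤ))) + 1) * ((n / d : ℕ) : ℤ)}.Finite := by
  have : {x : ℤ | ∃ d : ℕ, d ∣ n ∧
      x = (2 * (((d : ℤ) - 2) / (2 * (h : ℤ))) + 1) * ((n / d : ℕ) : ℤ)} ⊆
      ((Nat.divisors n).image (fun d : ℕ =>
        (2 * (((d : ℤ) - 2) / (2 * (h : ℤ))) + 1) * ((n / d : ℕ) : ℤ)) : Finset ℤ) := by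
    rintro x ⟨d, hd, rfl⟩
    rw [mem_coe, mem_image]
    exact ⟨d, Nat.mem_divisors.2 ⟨hd, by omega⟩, rfl⟩
  exact (Finset.finite_toSet _).subset this

theorem le_v (n h d : ℕ) (hn : 1 ≤ n) (hd : d ∣ n) :
    (2 * (((d : ℤ) - 2) / (2 * (h : ℤ))) + 1) * ((n / d : ℕ) : ℤ) ≤ v n h :=
  le_csSup (v_set_finite n h hn).bddAbove ⟨d, hd, rfl⟩

theorem exists_v (n h : ℕ) (hn : 1 ≤ n) : ∃ d : ℕ, d ∣ n ∧
    v n h = (2 * (((d : ℤ) - 2) / (2 * (h : ℤ))) + 1) * ((n / d : ℕ) : ℤ) := by
  have hne : {x : ℤ | ∃ d : ℕ, d ∣ n ∧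
      x = (2 * (((d : ℤ) - 2) / (2 * (h : ℤ))) + 1) * ((n / d : ℕ) : ℤ)}.Nonempty :=
    ⟨_, n, dvd_rfl, rfl⟩
  exact hne.csSup_mem (v_set_finite n h hn)

/-- If `t` satisfies `2 s t + 2 ≤ d`, then `(2t+1) e ≤ v(de, s)`. -/
theorem le_v' (s d e t : ℕ) (hs : 1 ≤ s) (he : 1 ≤ e) (hd : 2 * s * t + 2 ≤ d) :
    (((2 * t + 1) * e : ℕ) : ℤ) ≤ v (d * e) s := by
  have hd0 : 0 < d := by omega
  have h1 := le_v (d * e) s d (Nat.mul_pos hd0 he) (dvd_mul_right d e)
  rw [Nat.mul_div_cancel_left e hd0] at h1
  refine le_trans ?_ h1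
  push_cast
  apply mul_le_mul_of_nonneg_right _ (by positivity)
  have hs' : (0 : ℤ) < 2 * (s : ℤ) := by positivity
  have : (t : ℤ) ≤ ((d : ℤ) - 2) / (2 * (s : ℤ)) := by
    rw [Int.le_ediv_iff_mul_le hs']
    have : ((2 * s * t + 2 : ℕ) : ℤ) ≤ (d : ℤ) := by exact_mod_cast hd
    push_cast at this
    linarith
  linarith

theorem upper (n s : ℕ) (hn : 1 ≤ n) (hs : 1 ≤ s) (A : Finset (ZMod n))
    (hA : signedUpTo s A ≠ Set.univ) : (A.card : ℤ) ≤ v n s := by
  have : NeZero n := ⟨by omega⟩
  obtain ⟨g, hg⟩ := (Set.ne_univ_iff_exists_notMem _).1 hA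
  rcases Nat.even_or_odd n with heven | hodd
  · obtain ⟨e, he⟩ := heven
    have hn2 : n = 2 * e := by omega
    rcases Nat.lt_or_ge s 2 with hs2 | hs2
    · -- `s = 1`
      have hs1 : s = 1 := by omega
      subst hs1
      have hgA : g ∉ A := by
        intro hgA
        apply hg
        refine ⟨1, le_rfl, fun z => if z = g then 1 else 0, ?_, ?_⟩
        · have : ∀ z ∈ A, |(if z = g then (1 : ℤ) else 0)| = if z = g then (1 : ℤ) else 0 := by
            intro z _
            split_ifs <;> simp
          rw [sum_congr rfl this, sum_ite_eq' A g, if_pos hgA]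
          rfl
        · have : ∀ z ∈ A, (if z = g then (1 : ℤ) else 0) • z = if z = g then z else 0 := by
            intro z _
            split_ifs <;> simp
          rw [sum_congr rfl this, sum_ite_eq' A g, if_pos hgA]
      have hcard : A.card < n := by
        calc A.card < (univ : Finset (ZMod n)).card := card_lt_card (ssubset_univ_iff.2 (fun h =>
              hgA (h ▸ mem_univ g)))
          _ = n := by rw [card_univ, ZMod.card]
      have h1 := le_v' 1 n 1 (e - 1) le_rfl le_rfl (by omega)
      have hn1 : n * 1 = n := Nat.mul_one n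
      rw [hn1] at h1
      refine le_trans ?_ h1
      have : A.card ≤ (2 * (e - 1) + 1) * 1 := by omega
      exact_mod_cast this
    · -- `s ≥ 2`
      have hle : A.card ≤ e := by
        by_contra hcon
        push Not at hcon
        apply hg
        -- pigeonhole: `A` and `g - A` meet
        have hcard2 : (A.image (fun x => g - x)).card = A.card :=
          card_image_of_injective _ (fun a b hab => by simpa using hab)
        have hint : (A ∩ A.image (fun x => g - x)).Nonempty := by
          rw [← card_pos]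
          have h1 := card_union_add_card_inter A (A.image (fun x => g - x))
          have h2 : (A ∪ A.image (fun x => g - x)).card ≤ n := by
            calc _ ≤ Fintype.card (ZMod n) := card_le_univ _
              _ = n := ZMod.card n
          omega
        obtain ⟨a, ha⟩ := hint
        rw [mem_inter, mem_image] at ha
        obtain ⟨ha, b, hb, hba⟩ := ha
        have hsum : a + b = g := by rw [← hba]; ring
        refine ⟨2, hs2, fun z => (if z = a then 1 else 0) + (if z = b then 1 else 0), ?_, ?_⟩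
        · have : ∀ z ∈ A, |(if z = a then (1 : ℤ) else 0) + (if z = b then (1 : ℤ) else 0)| =
              (if z = a then (1 : ℤ) else 0) + (if z = b then (1 : ℤ) else 0) := by
            intro z _
            apply abs_of_nonneg
            split_ifs <;> norm_num
          rw [sum_congr rfl this, sum_add_distrib, sum_ite_eq' A a, sum_ite_eq' A b, if_pos ha,
            if_pos hb]
          norm_num
        · have : ∀ z ∈ A, ((if z = a then (1 : ℤ) else 0) + (if z = b then (1 : ℤ) else 0)) • z =
              (if z = a then z else 0) + (if z = b then z else 0) := by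
            intro z _
            rw [add_zsmul]
            split_ifs <;> simp
          rw [sum_congr rfl this, sum_add_distrib, sum_ite_eq' A a, sum_ite_eq' A b, if_pos ha,
            if_pos hb]
          exact hsum
      have h1 := le_v' s 2 e 0 hs (by omega) (by omega)
      rw [← hn2] at h1
      refine le_trans ?_ h1
      have : A.card ≤ (2 * 0 + 1) * e := by omega
      exact_mod_cast this
  · -- odd `n`
    have hodd' : Odd (Fintype.card (ZMod n)) := by rwa [ZMod.card]
    have hne : sm s (insert 0 (A ∪ -A)) ≠ univ := by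
      intro h
      have hgs : g ∈ sm s (insert 0 (A ∪ -A)) := by rw [h]; exact mem_univ g
      obtain ⟨c, hc1, hc2⟩ := exists_coeff A s g hgs
      apply hg
      have hnn : 0 ≤ ∑ a ∈ A, |c a| := sum_nonneg (fun a _ => abs_nonneg _)
      refine ⟨(∑ a ∈ A, |c a|).toNat, by omega, c, ?_, hc2⟩
      omega
    have hsym : ∀ x ∈ insert 0 (A ∪ -A), -x ∈ insert 0 (A ∪ -A) := by
      intro x hx
      rw [mem_insert, mem_union, mem_neg] at hx ⊢
      rcases hx with rfl | hx | ⟨y, hy, rfl⟩
      · left; exact neg_zero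
      · right; right; exact ⟨x, hx, rfl⟩
      · right; left; rwa [neg_neg]
    obtain ⟨d, e, t, hde, hd2, hcard, ht⟩ := symm_bound hodd' (mem_insert_self 0 _) hsym s hs hne
    rw [ZMod.card] at hde
    have he : 1 ≤ e := by
      rcases Nat.eq_zero_or_pos e with rfl | h
      · rw [Nat.mul_zero] at hde; omega
      · exact h
    have h1 := le_v' s d e t hs he ht
    rw [hde] at h1
    refine le_trans ?_ h1
    have : A.card ≤ (2 * t + 1) * e := by
      refine le_trans (card_le_card ?_) hcard
      intro x hx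
      exact mem_insert_of_mem (mem_union_left _ hx)
    exact_mod_cast this

theorem fiber_card (d e : ℕ) (hd : 1 ≤ d) [NeZero (d * e)] (y : ZMod d) :
    ((univ : Finset (ZMod (d * e))).filter
      (fun x => (ZMod.castHom (dvd_mul_right d e) (ZMod d)) x = y)).card = e := by
  have : NeZero d := ⟨by omega⟩
  set f := ZMod.castHom (dvd_mul_right d e) (ZMod d) with hf
  have hsurj : Function.Surjective f := ZMod.castHom_surjective _
  have hconst : ∀ y : ZMod d, ((univ : Finset (ZMod (d * e))).filter (fun x => f x = y)).card =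
      ((univ : Finset (ZMod (d * e))).filter (fun x => f x = 0)).card := by
    intro y
    obtain ⟨x0, hx0⟩ := hsurj y
    symm
    apply card_bij (fun x _ => x + x0)
    · intro x hx
      rw [mem_filter] at hx ⊢
      exact ⟨mem_univ _, by rw [map_add, hx.2, zero_add, hx0]⟩
    · intro a _ b _ hab
      exact add_right_cancel hab
    · intro z hz
      rw [mem_filter] at hz
      exact ⟨z - x0, by rw [mem_filter]; exact ⟨mem_univ _, by rw [map_sub, hz.2, hx0, sub_self]⟩,
        by ring⟩
  have hsum : (univ : Finset (ZMod (d * e))).card = ∑ y : ZMod d,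
      ((univ : Finset (ZMod (d * e))).filter (fun x => f x = y)).card :=
    card_eq_sum_card_fiberwise (fun x _ => mem_coe.2 (mem_univ (f x)))
  rw [sum_congr rfl (fun y _ => hconst y), sum_const, card_univ, card_univ, ZMod.card, ZMod.card,
    smul_eq_mul] at hsum
  rw [hconst y]
  exact (Nat.eq_of_mul_eq_mul_left (by omega) hsum).symm

theorem lower (d e s t : ℕ) (hs : 1 ≤ s) (he : 1 ≤ e) (ht : 2 * s * t + 2 ≤ d) :
    ∃ A : Finset (ZMod (d * e)), A.card = (2 * t + 1) * e ∧ signedUpTo s A ≠ Set.univ := by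
  have hd : 1 ≤ d := by omega
  have : NeZero d := ⟨by omega⟩
  have : NeZero (d * e) := ⟨by positivity⟩
  set f := ZMod.castHom (dvd_mul_right d e) (ZMod d) with hf
  have hsurj : Function.Surjective f := ZMod.castHom_surjective _
  set J : Finset (ZMod d) := (Icc (-(t : ℤ)) t).image (fun j : ℤ => (j : ZMod d)) with hJ
  have hJcard : J.card = 2 * t + 1 := by
    rw [hJ, card_image_of_injOn, Int.card_Icc]
    · omega
    · intro x hx y hy hxy
      rw [mem_coe, mem_Icc] at hx hy
      have h1 : ((x - y : ℤ) : ZMod d) = 0 := by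
        have hxy' : (x : ZMod d) = (y : ZMod d) := hxy
        rw [Int.cast_sub, hxy', sub_self]
      rw [ZMod.intCast_zmod_eq_zero_iff_dvd] at h1
      have h2 : |x - y| < (d : ℤ) := by
        have : (2 * t + 2 : ℕ) ≤ d := by
          refine le_trans ?_ ht
          have : 2 * t ≤ 2 * s * t := by nlinarith
          omega
        rw [abs_lt]
        omega
      have := Int.eq_zero_of_abs_lt_dvd h1 h2
      linarith
  refine ⟨univ.filter (fun x => f x ∈ J), ?_, ?_⟩
  · have hmaps : Set.MapsTo f ((univ.filter (fun x => f x ∈ J) : Finset (ZMod (d * e))) :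
        Set (ZMod (d * e))) (J : Set (ZMod d)) := by
      intro x hx
      rw [mem_coe, mem_filter] at hx
      exact mem_coe.2 hx.2
    rw [card_eq_sum_card_fiberwise hmaps]
    have : ∀ y ∈ J, ((univ.filter (fun x => f x ∈ J) : Finset (ZMod (d * e))).filter
        (fun x => f x = y)).card = e := by
      intro y hy
      have h1 := fiber_card d e hd y
      rw [← hf] at h1
      refine Eq.trans ?_ h1
      congr 1
      ext x
      simp only [mem_filter, mem_univ, true_and]
      constructor
      · exact fun h => h.2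
      · intro h
        exact ⟨by rw [h]; exact hy, h⟩
    rw [sum_congr rfl this, sum_const, hJcard, smul_eq_mul]
  · intro huniv
    obtain ⟨g, hg⟩ := hsurj (((s * t + 1 : ℕ) : ℤ) : ZMod d)
    have hgmem : g ∈ signedUpTo s (univ.filter (fun x => f x ∈ J)) := by
      rw [huniv]; exact Set.mem_univ g
    obtain ⟨h, hhs, c, hc1, hc2⟩ := hgmem
    -- representatives in `[-t, t]`
    have hrep : ∀ x : ZMod (d * e), x ∈ univ.filter (fun x => f x ∈ J) →
        ∃ j : ℤ, |j| ≤ t ∧ (j : ZMod d) = f x := by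
      intro x hx
      rw [mem_filter, hJ, mem_image] at hx
      obtain ⟨-, j, hj, hjx⟩ := hx
      rw [mem_Icc] at hj
      exact ⟨j, abs_le.2 hj, hjx⟩
    choose! r hr1 hr2 using hrep
    set F := (univ.filter (fun x => f x ∈ J) : Finset (ZMod (d * e))) with hF
    have himg : ((∑ x ∈ F, c x * r x : ℤ) : ZMod d) = (((s * t + 1 : ℕ) : ℤ) : ZMod d) := by
      rw [← hg, ← hc2, map_sum, Int.cast_sum]
      apply sum_congr rfl
      intro x hx
      rw [Int.cast_mul, hr2 x hx, map_zsmul, zsmul_eq_mul]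
    have hbound : |∑ x ∈ F, c x * r x| ≤ s * t := by
      calc |∑ x ∈ F, c x * r x| ≤ ∑ x ∈ F, |c x * r x| := abs_sum_le_sum_abs _ _
        _ = ∑ x ∈ F, |c x| * |r x| := by simp only [abs_mul]
        _ ≤ ∑ x ∈ F, |c x| * t := by
          apply sum_le_sum
          intro x hx
          exact mul_le_mul_of_nonneg_left (hr1 x hx) (abs_nonneg _)
        _ = (h : ℤ) * t := by rw [← sum_mul, hc1]
        _ ≤ s * t := by
          apply mul_le_mul_of_nonneg_right _ (by positivity)
          exact_mod_cast hhs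
    have hz : ((((s * t + 1 : ℕ) : ℤ) - ∑ x ∈ F, c x * r x : ℤ) : ZMod d) = 0 := by
      rw [Int.cast_sub, himg, sub_self]
    rw [ZMod.intCast_zmod_eq_zero_iff_dvd] at hz
    have hd' : ((2 * s * t + 2 : ℕ) : ℤ) ≤ d := by exact_mod_cast ht
    push_cast at hd' hz
    rw [abs_le] at hbound
    have hlt : |(s : ℤ) * t + 1 - ∑ x ∈ F, c x * r x| < d := by
      rw [abs_lt]
      constructor
      · have : (0 : ℤ) < d := by exact_mod_cast hd
        linarith
      · nlinarith
    have := Int.eq_zero_of_abs_lt_dvd hz hlt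
    linarith

/-- For all positive integers `n` and `s`, `χ_±(ℤ_n, [0,s]) = v_±(n,s) + 1`. -/
theorem result : ∀ n s : ℕ, 1 ≤ n → 1 ≤ s → (chi n s : ℤ) = v n s + 1 := by
  intro n s hn hs
  have : NeZero n := ⟨by omega⟩
  have hvn : -1 ≤ v n s := by
    have h1 := le_v n s n hn dvd_rfl
    rw [Nat.div_self (by omega : 0 < n)] at h1
    push_cast at h1
    have h2 : (-1 : ℤ) ≤ ((n : ℤ) - 2) / (2 * (s : ℤ)) := by
      rw [Int.le_ediv_iff_mul_le (by positivity)]
      have : (1 : ℤ) ≤ n := by exact_mod_cast hn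
      have : (1 : ℤ) ≤ s := by exact_mod_cast hs
      linarith
    linarith
  have hmem : (v n s + 1).toNat ∈
      {m | ∀ A : Finset (ZMod n), m ≤ A.card → signedUpTo s A = Set.univ} := by
    intro A hA
    by_contra hne
    have := upper n s hn hs A hne
    omega
  apply le_antisymm
  · have := Nat.sInf_le hmem
    have h2 : ((chi n s : ℕ) : ℤ) ≤ ((v n s + 1).toNat : ℤ) := by exact_mod_cast this
    rwa [Int.toNat_of_nonneg (by linarith)] at h2
  · obtain ⟨d, ⟨e, rfl⟩, hv⟩ := exists_v n s hn
    have hd : 0 < d := Nat.pos_of_mul_pos_right hn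
    have he : 0 < e := Nat.pos_of_mul_pos_left hn
    rw [Nat.mul_div_cancel_left e hd] at hv
    rcases Nat.lt_or_ge d 2 with hd2 | hd2
    · have hd1 : d = 1 := by omega
      subst hd1
      have h1 : (((1 : ℕ) : ℤ) - 2) / (2 * (s : ℤ)) = -1 := by
        have hs' : (1 : ℤ) ≤ s := by exact_mod_cast hs
        rw [Int.ediv_eq_iff_of_pos (by positivity)]
        constructor
        · push_cast; linarith
        · push_cast; linarith
      rw [h1] at hv
      have he' : (1 : ℤ) ≤ e := by exact_mod_cast he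
      have : (0 : ℤ) ≤ (chi (1 * e) s : ℤ) := by positivity
      linarith
    · set t := (((d : ℤ) - 2) / (2 * (s : ℤ))).toNat with ht
      have hnn : 0 ≤ ((d : ℤ) - 2) / (2 * (s : ℤ)) := by
        apply Int.ediv_nonneg _ (by positivity)
        have : (2 : ℤ) ≤ d := by exact_mod_cast hd2
        linarith
      have htc : (t : ℤ) = ((d : ℤ) - 2) / (2 * (s : ℤ)) := Int.toNat_of_nonneg hnn
      have hle : 2 * s * t + 2 ≤ d := by
        have h3 : ((d : ℤ) - 2) / (2 * (s : ℤ)) * (2 * (s : ℤ)) ≤ (d : ℤ) - 2 :=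
          Int.ediv_mul_le _ (by positivity)
        rw [← htc] at h3
        have h4 : ((2 * s * t + 2 : ℕ) : ℤ) ≤ (d : ℤ) := by push_cast; linarith
        exact_mod_cast h4
      obtain ⟨A, hAcard, hA⟩ := lower d e s t hs he hle
      rw [← htc] at hv
      have hne : {m | ∀ A : Finset (ZMod (d * e)), m ≤ A.card →
          signedUpTo s A = Set.univ}.Nonempty := ⟨_, hmem⟩
      have hin := Nat.sInf_mem hne
      have hlt : A.card < chi (d * e) s := by
        by_contra hcon
        push Not at hcon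
        exact hA (hin A hcon)
      have h5 : ((A.card : ℕ) : ℤ) < (chi (d * e) s : ℤ) := by exact_mod_cast hlt
      rw [hAcard] at h5
      push_cast at h5
      linarith

end Pool.Agent.Results.MP_c7e63d_co.SignedCritical
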